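import Pool.Agent.T9h80.GP.A4

/-!
# A5: moments
-/

open Polynomial Filter Topology Bornology MeasureTheory
open Pool.Agent.T9h40.GP

namespace Pool.Agent.T9h80.GP

/-- An identity on a dense set extends to the outside of a disc. -/
theorem eq_of_dense {E : Type*} [TopologicalSpace E] [T2Space E] (f : ℂ → E) (c : E) (R : ℝ)
    (K : Set ℂ) (hK : Dense K) (hf : ContinuousOn f {t | R < ‖t‖})
    (h : ∀ t ∈ K, R < ‖t‖ → f t = c) : ∀ t, R < ‖t‖ → f t = c := by
  have h1 : Set.EqOn f (fun _ => c) ({t | R < ‖t‖} ∩ K) := fun t ht => h t ht.2 ht.1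
  have h2 := h1.of_subset_closure hf continuousOn_const Set.inter_subset_left
    (hK.open_subset_closure_inter (isOpen_out R))
  exact fun t ht => h2 ht

/-- A holomorphic function with zero imaginary part near `0` is locally constant. -/
theorem const_of_im (G : ℂ → ℂ) (r : ℝ) (hr : 0 < r)
    (hd : DifferentiableOn ℂ G (Metric.ball 0 r))
    (h0 : ∀ z ∈ Metric.ball (0:ℂ) r, (G z).im = 0) : ∀ z ∈ Metric.ball (0:ℂ) r, G z = G 0 := by
  have ha : AnalyticOnNhd ℂ G (Metric.ball 0 r) := hd.analyticOnNhd Metric.isOpen_ball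
  have hm : (0:ℂ) ∈ Metric.ball (0:ℂ) r := Metric.mem_ball_self hr
  rcases ha.is_constant_or_isOpen (convex_ball _ _).isPreconnected with ⟨w, hw⟩ | ho
  · intro z hz
    rw [hw z hz, hw 0 hm]
  · exfalso
    have h1 := ho (Metric.ball 0 r) subset_rfl Metric.isOpen_ball
    have h2 : G 0 ∈ G '' Metric.ball 0 r := ⟨0, hm, rfl⟩
    obtain ⟨ε, he, hb⟩ := Metric.isOpen_iff.mp h1 _ h2
    have h3 : G 0 + (ε / 2 : ℝ) * Complex.I ∈ Metric.ball (G 0) ε := by
      rw [Metric.mem_ball, dist_eq_norm, add_sub_cancel_left, norm_mul, Complex.norm_I, mul_one,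
        Complex.norm_real, Real.norm_of_nonneg (by positivity)]
      linarith
    obtain ⟨z, hz, hz'⟩ := hb h3
    have h4 := h0 z hz
    rw [hz'] at h4
    simp [h0 0 hm] at h4
    linarith

theorem moment : Moment := by
  intro m a h x B R K hK hB hBR hh hx hxB hz j hj
  obtain ⟨c, hc, hc0, hs⟩ := log_coef
  have hR : 0 < R := lt_of_lt_of_le hB hBR
  have hxR : ∀ k, ∀ θ ∈ Set.Icc (0:ℝ) 1, ‖x k θ‖ ≤ R := fun k θ hθ => (hxB k θ hθ).trans hBR
  set G : ℂ → ℂ := GG (fun k => (a k : ℂ)) h x (fun z => Complex.log (1 - z)) with hG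
  have hd := gg_diff (fun k => (a k : ℂ)) h x R hh hx hR hxR c hc _ hs
  rw [← hG] at hd
  have h1 : ∀ t, R < ‖t‖ → (G t⁻¹).im = 0 :=
    eq_of_dense (fun t => (G t⁻¹).im) 0 R K hK
      (Complex.continuous_im.comp_continuousOn hd.continuousOn) (fun t ht htR => hz t ht htR)
  have h00 : G 0 = 0 := gg_log_zero _ _ _
  have h2 : ∀ z ∈ Metric.ball (0:ℂ) R⁻¹, (G z).im = 0 := by
    intro z hz
    by_cases hz0 : z = 0
    · rw [hz0, h00, Complex.zero_im]
    · have := h1 z⁻¹ (by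
        rw [norm_inv]
        rw [mem_ball_zero_iff] at hz
        exact (lt_inv_comm₀ hR (norm_pos_iff.mpr hz0)).mpr hz)
      rwa [inv_inv] at this
  have h3 := (fps (fun k => (a k : ℂ)) h x R hh hx hR hxR c hc _ hs).differentiableOn
  rw [Metric.eball_ofReal, ← hG] at h3
  have h4 := const_of_im G R⁻¹ (inv_pos.mpr hR) h3 h2
  have h5 : ∀ᶠ z in 𝓝 (0:ℂ), G z = 0 := by
    filter_upwards [Metric.ball_mem_nhds (0:ℂ) (inv_pos.mpr hR)] with z hz
    rw [h4 z hz, h00]
  have h6 := coef_zero (fun k => (a k : ℂ)) h x R hh hx hR hxR c hc _ hs h5 j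
  exact (mul_eq_zero.mp h6).resolve_left (hc0 j hj)

end Pool.Agent.T9h80.GP
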