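import Pool.Agent.T9h80.GP.A5

/-!
# A6: moments from Cauchy transforms
-/

open Polynomial Filter Topology Bornology MeasureTheory
open Pool.Agent.T9h40.GP

namespace Pool.Agent.T9h80.GP

theorem momS : MomS := by
  intro m a g y B R K hK hB hBR hg hy hyB hz i
  have hR : 0 < R := lt_of_lt_of_le hB hBR
  have hyR : ∀ k, ∀ θ ∈ Set.Icc (0:ℝ) 1, ‖y k θ‖ ≤ R := fun k θ hθ => (hyB k θ hθ).trans hBR
  have hs : ∀ z : ℂ, ‖z‖ < 1 → HasSum (fun n => (fun _ : ℕ => (1:ℂ)) n * z ^ n) (1 - z)⁻¹ := by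
    intro z hz'
    simpa using hasSum_geometric_of_norm_lt_one hz'
  have hc : ∀ n : ℕ, ‖(fun _ : ℕ => (1:ℂ)) n‖ ≤ 1 := by
    intro n
    simp
  set G : ℂ → ℂ := GG (fun k => (a k : ℂ)) g y (fun z => (1 - z)⁻¹) with hG
  have hd := gg_diff (fun k => (a k : ℂ)) g y R hg hy hR hyR (fun _ => 1) hc _ hs
  rw [← hG] at hd
  have h1 : ∀ t, R < ‖t‖ → G t⁻¹ = 0 := by
    refine eq_of_dense (fun t => G t⁻¹) 0 R K hK hd.continuousOn (fun t ht htR => ?_)
    have h2 := hz t ht htR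
    have ht0 : t ≠ 0 := by
      rintro rfl
      rw [norm_zero] at htR
      linarith
    have h3 : ∑ k, (a k : ℂ) * ∫ θ in (0:ℝ)..1, g k θ / (y k θ - t) = -t⁻¹ * G t⁻¹ := by
      rw [hG]
      unfold GG
      rw [Finset.mul_sum]
      refine Finset.sum_congr rfl fun k _ => ?_
      have h4 : ∫ θ in (0:ℝ)..1, g k θ / (y k θ - t)
          = ∫ θ in (0:ℝ)..1, -t⁻¹ * (g k θ * (1 - y k θ * t⁻¹)⁻¹) := by
        refine intervalIntegral.integral_congr fun θ _ => ?_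
        have h5 : y k θ - t = -t * (1 - y k θ * t⁻¹) := by
          field_simp
          ring
        change g k θ / (y k θ - t) = -t⁻¹ * (g k θ * (1 - y k θ * t⁻¹)⁻¹)
        rw [h5, div_eq_mul_inv, mul_inv, inv_neg]
        ring
      rw [h4, intervalIntegral.integral_const_mul]
      ring
    rw [h3] at h2
    exact (mul_eq_zero.mp h2).resolve_left (neg_ne_zero.mpr (inv_ne_zero ht0))
  have h2 : ∀ᶠ z in 𝓝[≠] (0:ℂ), G z = 0 := by
    rw [eventually_nhdsWithin_iff]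
    filter_upwards [Metric.ball_mem_nhds (0:ℂ) (inv_pos.mpr hR)] with z hz' hz0
    have := h1 z⁻¹ (by
      rw [norm_inv]
      rw [mem_ball_zero_iff] at hz'
      exact (lt_inv_comm₀ hR (norm_pos_iff.mpr hz0)).mpr hz')
    rwa [inv_inv] at this
  have h3 := zero_of_punct G
    (gg_cont (fun k => (a k : ℂ)) g y R hg hy hR hyR (fun _ => 1) hc _ hs) h2
  have h4 := coef_zero (fun k => (a k : ℂ)) g y R hg hy hR hyR (fun _ => 1) hc _ hs h3 i
  rw [one_mul] at h4
  exact h4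

end Pool.Agent.T9h80.GP
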