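import Pool.Agent.T9h40.GP.Spec

/-!
# FinKer: finitely many conditions suffice
-/

open Polynomial Filter Topology Bornology MeasureTheory
open Pool.Agent.T9h40.GP

namespace Pool.Agent.T9h80.GP

theorem finKer : FinKer := by
  intro V _ _ _ ι W h
  classical
  -- a finite subfamily with minimal dimension of the intersection
  let d : Finset ι → ℕ := fun s => Module.finrank ℝ (s.inf W : Submodule ℝ V)
  obtain ⟨s, hs⟩ : ∃ s, ∀ s', d s ≤ d s' := ⟨Function.argmin d, fun s' => Function.argmin_le d s'⟩
  refine ⟨s, fun v hv => h v fun i => ?_⟩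
  have hv' : v ∈ (s.inf W : Submodule ℝ V) := by
    rw [Submodule.mem_finsetInf]
    exact hv
  have h1 : ((insert i s).inf W : Submodule ℝ V) ≤ s.inf W :=
    Finset.inf_mono (Finset.subset_insert i s)
  have h2 : ((insert i s).inf W : Submodule ℝ V) = s.inf W :=
    Submodule.eq_of_le_of_finrank_le h1 (hs _)
  rw [← h2, Submodule.mem_finsetInf] at hv'
  exact hv' i (Finset.mem_insert_self i s)

end Pool.Agent.T9h80.GP
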