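import Pool.Agent.T9h80.GP.Ser

/-!
# A4: the function `t ↦ ∫ h log(1 - x/t)` is holomorphic at infinity
-/

open Polynomial Filter Topology Bornology MeasureTheory
open Pool.Agent.T9h40.GP

namespace Pool.Agent.T9h80.GP

theorem inv_mem {B : ℝ} (hB : 0 < B) {t : ℂ} (ht : B < ‖t‖) :
    t⁻¹ ∈ Metric.eball (0:ℂ) (ENNReal.ofReal B⁻¹) := by
  rw [Metric.mem_eball, edist_zero_right, ← ofReal_norm,
    ENNReal.ofReal_lt_ofReal_iff (inv_pos.mpr hB), norm_inv]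
  exact (inv_lt_inv₀ (hB.trans ht) hB).mpr ht

/-- The composition with the inverse is holomorphic. -/
theorem gg_diff {m : ℕ} (a : Fin m → ℂ) (h x : Fin m → ℝ → ℂ) (B : ℝ)
    (hh : ∀ k, ContinuousOn (h k) (Set.Icc 0 1)) (hx : ∀ k, ContinuousOn (x k) (Set.Icc 0 1))
    (hB : 0 < B) (hxB : ∀ k, ∀ θ ∈ Set.Icc (0:ℝ) 1, ‖x k θ‖ ≤ B) (c : ℕ → ℂ)
    (hc : ∀ n, ‖c n‖ ≤ 1) (g : ℂ → ℂ)
    (hg : ∀ z, ‖z‖ < 1 → HasSum (fun n => c n * z ^ n) (g z)) :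
    DifferentiableOn ℂ (fun t => GG a h x g t⁻¹) {t | B < ‖t‖} := by
  have h1 := (fps a h x B hh hx hB hxB c hc g hg).differentiableOn
  have h2 : DifferentiableOn ℂ (fun t : ℂ => t⁻¹) {t | B < ‖t‖} := by
    intro t ht
    have h0 : t ≠ 0 := by
      rintro rfl
      change B < ‖(0:ℂ)‖ at ht
      rw [norm_zero] at ht
      linarith
    exact (differentiableAt_inv h0).differentiableWithinAt
  exact h1.comp h2 (fun t ht => inv_mem hB ht)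

theorem gg_cont {m : ℕ} (a : Fin m → ℂ) (h x : Fin m → ℝ → ℂ) (B : ℝ)
    (hh : ∀ k, ContinuousOn (h k) (Set.Icc 0 1)) (hx : ∀ k, ContinuousOn (x k) (Set.Icc 0 1))
    (hB : 0 < B) (hxB : ∀ k, ∀ θ ∈ Set.Icc (0:ℝ) 1, ‖x k θ‖ ≤ B) (c : ℕ → ℂ)
    (hc : ∀ n, ‖c n‖ ≤ 1) (g : ℂ → ℂ)
    (hg : ∀ z, ‖z‖ < 1 → HasSum (fun n => c n * z ^ n) (g z)) : ContinuousAt (GG a h x g) 0 :=
  (fps a h x B hh hx hB hxB c hc g hg).hasFPowerSeriesAt.continuousAt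

theorem gg_log_zero {m : ℕ} (a : Fin m → ℂ) (h x : Fin m → ℝ → ℂ) :
    GG a h x (fun z => Complex.log (1 - z)) 0 = 0 := by
  unfold GG
  simp

theorem qqDiff : QqDiff := by
  intro h x B hh hx hB hxB
  obtain ⟨c, hc, -, hs⟩ := log_coef
  have e : ∀ τ, qq h x τ = GG (m := 1) (fun _ => 1) (fun _ => h) (fun _ => x)
      (fun z => Complex.log (1 - z)) τ := by
    intro τ
    simp [qq, GG]
  have e' : (fun t : ℂ => qq h x t⁻¹) = fun t => GG (m := 1) (fun _ => 1) (fun _ => h)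
      (fun _ => x) (fun z => Complex.log (1 - z)) t⁻¹ := funext fun t => e t⁻¹
  rw [e']
  refine ⟨gg_diff _ _ _ B (fun _ => hh) (fun _ => hx) hB (fun _ => hxB) c hc _ hs, ?_⟩
  have h1 := (gg_cont (m := 1) (fun _ => 1) (fun _ => h) (fun _ => x) B (fun _ => hh)
    (fun _ => hx) hB (fun _ => hxB) c hc _ hs).tendsto
  rw [gg_log_zero] at h1
  exact h1.comp (tendsto_inv₀_cobounded)

end Pool.Agent.T9h80.GP
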