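import Pool.Agent.T9h40.GP.Spec

/-!
# Power series of integrals along paths
-/

open Polynomial Filter Topology Bornology MeasureTheory

namespace Pool.Agent.T9h80.GP

theorem hs_congr {f g : ℕ → ℂ} {s : ℂ} (h : ∀ n, g n = f n) (hf : HasSum f s) : HasSum g s := by
  have : g = f := funext h
  rw [this]
  exact hf

/-- Power series of an integral. -/
theorem ser (h x : ℝ → ℂ) (B : ℝ) (hh : ContinuousOn h (Set.Icc 0 1))
    (hx : ContinuousOn x (Set.Icc 0 1)) (hB : 0 < B)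
    (hxB : ∀ θ ∈ Set.Icc (0:ℝ) 1, ‖x θ‖ ≤ B) (c : ℕ → ℂ) (hc : ∀ n, ‖c n‖ ≤ 1) (g : ℂ → ℂ)
    (hg : ∀ z, ‖z‖ < 1 → HasSum (fun n => c n * z ^ n) (g z)) (τ : ℂ) (hτ : B * ‖τ‖ < 1) :
    HasSum (fun n => (c n * ∫ θ in (0:ℝ)..1, h θ * x θ ^ n) * τ ^ n)
      (∫ θ in (0:ℝ)..1, h θ * g (x θ * τ)) := by
  obtain ⟨H, hH⟩ := isCompact_Icc.exists_bound_of_continuousOn hh
  have hH0 : 0 ≤ H := le_trans (norm_nonneg _) (hH 0 ⟨le_refl _, zero_le_one⟩)
  have hi : ∀ t : ℝ, t ∈ Set.uIoc (0:ℝ) 1 → t ∈ Set.Icc (0:ℝ) 1 := by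
    intro t ht
    rw [Set.uIoc_of_le zero_le_one] at ht
    exact ⟨ht.1.le, ht.2⟩
  have hq0 : 0 ≤ B * ‖τ‖ := by positivity
  have key := intervalIntegral.hasSum_integral_of_dominated_convergence (μ := volume)
    (a := (0:ℝ)) (b := 1) (F := fun n θ => h θ * (c n * (x θ * τ) ^ n))
    (f := fun θ => h θ * g (x θ * τ)) (fun n _ => H * (B * ‖τ‖) ^ n) ?_ ?_ ?_ ?_ ?_
  · refine hs_congr (fun n => ?_) key
    rw [← intervalIntegral.integral_const_mul, ← intervalIntegral.integral_mul_const]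
    refine intervalIntegral.integral_congr fun θ _ => ?_
    simp only [mul_pow]
    ring
  · intro n
    refine ContinuousOn.aestronglyMeasurable ?_ measurableSet_uIoc
    refine ContinuousOn.mono ?_ (fun t ht => hi t ht)
    exact hh.mul (continuousOn_const.mul ((hx.mul continuousOn_const).pow n))
  · intro n
    refine Eventually.of_forall fun t ht => ?_
    have h1 := hH t (hi t ht)
    have h2 := hxB t (hi t ht)
    rw [norm_mul, norm_mul, norm_pow, norm_mul]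
    have h3 : (‖x t‖ * ‖τ‖) ^ n ≤ (B * ‖τ‖) ^ n := by
      gcongr
    have h4 : ‖c n‖ * (‖x t‖ * ‖τ‖) ^ n ≤ 1 * (B * ‖τ‖) ^ n := by
      apply mul_le_mul (hc n) h3 (by positivity) zero_le_one
    rw [one_mul] at h4
    exact mul_le_mul h1 h4 (by positivity) hH0
  · exact Eventually.of_forall fun t _ => (summable_geometric_of_lt_one hq0 hτ).mul_left H
  · exact intervalIntegrable_const
  · refine Eventually.of_forall fun t ht => ?_
    refine (hg (x t * τ) ?_).mul_left (h t)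
    rw [norm_mul]
    have h2 := hxB t (hi t ht)
    calc ‖x t‖ * ‖τ‖ ≤ B * ‖τ‖ := by gcongr
      _ < 1 := hτ

/-- A bound of the moments. -/
theorem mom_le (h x : ℝ → ℂ) (B : ℝ) (hh : ContinuousOn h (Set.Icc 0 1))
    (hxB : ∀ θ ∈ Set.Icc (0:ℝ) 1, ‖x θ‖ ≤ B) :
    ∃ H : ℝ, 0 ≤ H ∧ ∀ n : ℕ, ‖∫ θ in (0:ℝ)..1, h θ * x θ ^ n‖ ≤ H * B ^ n := by
  obtain ⟨H, hH⟩ := isCompact_Icc.exists_bound_of_continuousOn hh
  have hH0 : 0 ≤ H := le_trans (norm_nonneg _) (hH 0 ⟨le_refl _, zero_le_one⟩)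
  refine ⟨H, hH0, fun n => ?_⟩
  have := intervalIntegral.norm_integral_le_of_norm_le_const (a := (0:ℝ)) (b := 1)
    (f := fun θ => h θ * x θ ^ n) (C := H * B ^ n) ?_
  · simpa using this
  · intro t ht
    rw [Set.uIoc_of_le zero_le_one] at ht
    have ht' : t ∈ Set.Icc (0:ℝ) 1 := ⟨ht.1.le, ht.2⟩
    rw [norm_mul, norm_pow]
    have h1 := hH t ht'
    have h2 := hxB t ht'
    gcongr

/-- The function `Σ a_k ∫ h_k g(x_k τ)`. -/
noncomputable def GG {m : ℕ} (a : Fin m → ℂ) (h x : Fin m → ℝ → ℂ) (g : ℂ → ℂ) (τ : ℂ) : ℂ :=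
  ∑ k, a k * ∫ θ in (0:ℝ)..1, h k θ * g (x k θ * τ)

/-- The moments. -/
noncomputable def MM {m : ℕ} (a : Fin m → ℂ) (h x : Fin m → ℝ → ℂ) (n : ℕ) : ℂ :=
  ∑ k, a k * ∫ θ in (0:ℝ)..1, h k θ * x k θ ^ n

/-- It has a power series with coefficients `c n * moment n`. -/
theorem fps {m : ℕ} (a : Fin m → ℂ) (h x : Fin m → ℝ → ℂ) (B : ℝ)
    (hh : ∀ k, ContinuousOn (h k) (Set.Icc 0 1)) (hx : ∀ k, ContinuousOn (x k) (Set.Icc 0 1))
    (hB : 0 < B) (hxB : ∀ k, ∀ θ ∈ Set.Icc (0:ℝ) 1, ‖x k θ‖ ≤ B) (c : ℕ → ℂ)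
    (hc : ∀ n, ‖c n‖ ≤ 1) (g : ℂ → ℂ)
    (hg : ∀ z, ‖z‖ < 1 → HasSum (fun n => c n * z ^ n) (g z)) :
    HasFPowerSeriesOnBall (GG a h x g)
      (FormalMultilinearSeries.ofScalars ℂ (fun n => c n * MM a h x n)) 0
      (ENNReal.ofReal B⁻¹) := by
  have hBi : 0 < B⁻¹ := inv_pos.mpr hB
  choose H hH0 hH using fun k => mom_le (h k) (x k) B (hh k) (hxB k)
  refine ⟨?_, by simpa using hBi, ?_⟩
  · have : ENNReal.ofReal B⁻¹ = ((Real.toNNReal B⁻¹ : NNReal) : ENNReal) := rfl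
    rw [this]
    refine FormalMultilinearSeries.le_radius_of_bound _ (∑ k, ‖a k‖ * H k) fun n => ?_
    rw [FormalMultilinearSeries.ofScalars_norm, Real.coe_toNNReal _ hBi.le]
    have h1 : ‖c n * MM a h x n‖ ≤ (∑ k, ‖a k‖ * H k) * B ^ n := by
      rw [norm_mul]
      calc ‖c n‖ * ‖MM a h x n‖ ≤ 1 * ‖MM a h x n‖ := by gcongr; exact hc n
        _ = ‖MM a h x n‖ := one_mul _
        _ ≤ ∑ k, ‖a k * ∫ θ in (0:ℝ)..1, h k θ * x k θ ^ n‖ := norm_sum_le _ _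
        _ ≤ ∑ k, ‖a k‖ * (H k * B ^ n) := by
            refine Finset.sum_le_sum fun k _ => ?_
            rw [norm_mul]
            gcongr
            exact hH k n
        _ = _ := by
            rw [Finset.sum_mul]
            exact Finset.sum_congr rfl fun k _ => by ring
    calc ‖c n * MM a h x n‖ * B⁻¹ ^ n ≤ ((∑ k, ‖a k‖ * H k) * B ^ n) * B⁻¹ ^ n := by gcongr
      _ = ∑ k, ‖a k‖ * H k := by
        rw [mul_assoc, ← mul_pow, mul_inv_cancel₀ hB.ne', one_pow, mul_one]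
  · intro τ hτ
    have hτ' : B * ‖τ‖ < 1 := by
      rw [Metric.mem_eball, edist_zero_right, ← ofReal_norm,
        ENNReal.ofReal_lt_ofReal_iff hBi] at hτ
      calc B * ‖τ‖ < B * B⁻¹ := by gcongr
        _ = 1 := mul_inv_cancel₀ hB.ne'
    simp only [FormalMultilinearSeries.ofScalars_apply_eq, zero_add, smul_eq_mul]
    have := hasSum_sum (s := Finset.univ) (fun k _ =>
      (ser (h k) (x k) B (hh k) (hx k) hB (hxB k) c hc g hg τ hτ').mul_left (a k))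
    unfold GG MM
    refine hs_congr (fun n => ?_) this
    rw [Finset.mul_sum, Finset.sum_mul]
    exact Finset.sum_congr rfl fun k _ => by ring

/-- The coefficients of the logarithm. -/
theorem log_coef : ∃ c : ℕ → ℂ, (∀ n, ‖c n‖ ≤ 1) ∧ (∀ n, 1 ≤ n → c n ≠ 0) ∧
    ∀ z : ℂ, ‖z‖ < 1 → HasSum (fun n => c n * z ^ n) (Complex.log (1 - z)) := by
  refine ⟨fun n => - (n:ℂ)⁻¹, fun n => ?_, fun n hn => ?_, fun z hz => ?_⟩
  · rw [norm_neg, norm_inv, Complex.norm_natCast]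
    rcases Nat.eq_zero_or_pos n with h | h
    · simp [h]
    · exact inv_le_one_of_one_le₀ (by exact_mod_cast h)
  · rw [neg_ne_zero]
    exact inv_ne_zero (by exact_mod_cast (by omega : n ≠ 0))
  · have := (Complex.hasSum_taylorSeries_neg_log hz).neg
    rw [neg_neg] at this
    refine hs_congr (fun n => ?_) this
    rw [div_eq_mul_inv]
    ring

/-- The set `{t | R < ‖t‖}` is open. -/
theorem isOpen_out (R : ℝ) : IsOpen {t : ℂ | R < ‖t‖} := isOpen_lt continuous_const continuous_norm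

/-- If `G` is continuous on the ball and vanishes outside `0`, it vanishes. -/
theorem zero_of_punct (G : ℂ → ℂ) (hG : ContinuousAt G 0)
    (h0 : ∀ᶠ z in 𝓝[≠] (0:ℂ), G z = 0) : ∀ᶠ z in 𝓝 (0:ℂ), G z = 0 := by
  have h1 : G 0 = 0 := by
    have h2 : Tendsto G (𝓝[≠] (0:ℂ)) (𝓝 (G 0)) := hG.tendsto.mono_left nhdsWithin_le_nhds
    have h3 : Tendsto G (𝓝[≠] (0:ℂ)) (𝓝 0) :=
      (tendsto_congr' (h0.mono fun z hz => hz)).mpr tendsto_const_nhds
    exact tendsto_nhds_unique h2 h3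
  rw [eventually_nhdsWithin_iff] at h0
  filter_upwards [h0] with z hz
  by_cases hz0 : z = 0
  · rw [hz0, h1]
  · exact hz hz0

/-- Coefficients vanish if the function vanishes near `0`. -/
theorem coef_zero {m : ℕ} (a : Fin m → ℂ) (h x : Fin m → ℝ → ℂ) (B : ℝ)
    (hh : ∀ k, ContinuousOn (h k) (Set.Icc 0 1)) (hx : ∀ k, ContinuousOn (x k) (Set.Icc 0 1))
    (hB : 0 < B) (hxB : ∀ k, ∀ θ ∈ Set.Icc (0:ℝ) 1, ‖x k θ‖ ≤ B) (c : ℕ → ℂ)
    (hc : ∀ n, ‖c n‖ ≤ 1) (g : ℂ → ℂ)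
    (hg : ∀ z, ‖z‖ < 1 → HasSum (fun n => c n * z ^ n) (g z))
    (h0 : ∀ᶠ z in 𝓝 (0:ℂ), GG a h x g z = 0) (n : ℕ) : c n * MM a h x n = 0 := by
  have h1 := (fps a h x B hh hx hB hxB c hc g hg).hasFPowerSeriesAt
  have h2 := h1.eq_zero_of_eventually h0
  have h3 := congrArg (fun p => FormalMultilinearSeries.coeff p n) h2
  simp only [FormalMultilinearSeries.coeff_ofScalars] at h3
  rw [h3]
  rfl

end Pool.Agent.T9h80.GP
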